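import Pool.Agent.X169.WTG.Cm

/-!
# The continuity method in the space of the symplectic forms of a cohomology class

`X` is a closed manifold (for example the complex projective plane), `σ` is a smooth closed
two-form on `X` with class `a`, and `S_a` is the space of the symplectic forms in the class `a`.
Let `J_t` be a continuous family of almost complex structures on `X`, with a connected compact
Hausdorff space `T` of parameters, such that `J_t` is tamed by a form of `S_a` for one parameter.
Suppose that for every limit `t` of such parameters, for which this is not known, the following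
estimate holds: for some sequence `t_n → t` there are smooth one-forms `β_n`, locally uniformly
bounded and converging at every point to a continuous one-form (without any bound on their
derivatives), such that `σ + dβ_n` is bounded below in the directions of `J_{t_n}`, uniformly near
every point, by a fixed smooth form `τ` with only small degeneracies for `J_t`.

Then all `J_t` are tamed by forms of `S_a`, also by a family `Ω : T → S_a` which is continuous in
the `C^∞` topology; and if `θ : S → S_a` is a family, continuous in the `C^∞` topology, such that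
`θ_s` tames `J_{γ(s, 0)}` for some continuous `γ : S × [0, 1] → T`, then `θ` is homotopic in `S_a`
to `s ↦ Ω_{γ(s, 1)}`.
-/

set_option autoImplicit false

open Set
open scoped Manifold ContDiff

namespace Pool.Agent.Results.MP_2fc7fa_gt.ContinuityMethod

open Pool.Agent.Y501.SYP Pool.Agent.X169.WTP Pool.Agent.X169.WTF Pool.Agent.X169.WTG

theorem result (d : ℕ) (X T : Type) [TopologicalSpace X] [ChartedSpace (ES d) X]
    [IsManifold 𝓘(ℝ, ES d) ∞ X] [CompactSpace X] [T2Space X]
    [TopologicalSpace T] [CompactSpace T] [T2Space T] [PreconnectedSpace T]
    (J : T → End (ES d) X) (hJ : IsFamily J)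
    (σ : Form (ES d) X 2) (hσ : IsSmooth σ) (hσc : IsClosedForm σ)
    (t₀ : T) (h₀ : Tamed σ (J t₀))
    (hest : ∀ t ∈ closure {t | Tamed σ (J t)}, ¬ Tamed σ (J t) → Estimate σ J t) :
    (∀ t, Tamed σ (J t)) ∧
    ∃ Ω : T → Form (ES d) X 2, CInf Ω ∧ (∀ t, InS σ (Ω t) ∧ ∀ x, TamesAt (Ω t) (J t) x) ∧
      ∀ (S : Type) [TopologicalSpace S] (γ : S × unitInterval → T), Continuous γ →
        ∀ θ : S → Form (ES d) X 2, CInf θ → (∀ s, InS σ (θ s)) →
          (∀ s x, TamesAt (θ s) (J (γ (s, 0))) x) →
          ∃ H : S × unitInterval → Form (ES d) X 2, CInf H ∧ (∀ q, InS σ (H q)) ∧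
            (∀ s, H (s, 0) = θ s) ∧ ∀ s, H (s, 1) = Ω (γ (s, 1)) :=
  contMethod J hJ σ hσ hσc t₀ h₀ hest

end Pool.Agent.Results.MP_2fc7fa_gt.ContinuityMethod
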