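import Pool.Agent.X169.WTF.Fam

/-!
# Null-homotopies in the space of the symplectic forms of a cohomology class

`X` is a closed manifold (for example the complex projective plane), `σ` is a smooth closed
two-form on `X` with class `a`, and `S_a` is the space of the symplectic forms in the class `a`.
Let `J_t` be a continuous family of almost complex structures on `X`, with a compact Hausdorff
space `T` of parameters, such that every `J_t` is weakly tamed in the class `a`: for some
continuous one-form `α` (nowhere differentiable, perhaps) the current `σ + dα` is bounded below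
on the pairs `(v, J_t v)`, in the sense of distributions, by a smooth form `τ` which is positive on
all pairs `(v, J_t v)`, except for the vectors `v` annihilated by the differential of a smooth map
`f`, over small subsets of the fibres of `f`. The data `τ, α, f` may depend on `t` in an arbitrary
way.

Then there is a family `Ω : T → S_a`, continuous in the `C^∞` topology, such that `Ω_t` tames
`J_t`; and if `θ : S → S_a` is a family, continuous in the `C^∞` topology, such that `θ_s` tames
`J_{γ(s, 0)}` for some continuous `γ : S × [0, 1] → T`, then `θ` is homotopic in `S_a` to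
`s ↦ Ω_{γ(s, 1)}`. In particular `θ` is null-homotopic in `S_a` if `γ(s, 1)` does not depend on
`s`, for example if `S` is the boundary sphere of a ball `T`.
-/

set_option autoImplicit false

open Set
open scoped Manifold ContDiff

namespace Pool.Agent.Results.MP_2fc7fa_gt.WeakTamingFamilies

open Pool.Agent.Y501.SYP Pool.Agent.X169.WTP Pool.Agent.X169.WTF

theorem result (d : ℕ) (X T : Type) [TopologicalSpace X] [ChartedSpace (ES d) X]
    [IsManifold 𝓘(ℝ, ES d) ∞ X] [CompactSpace X] [T2Space X]
    [TopologicalSpace T] [CompactSpace T] [T2Space T]
    (J : T → End (ES d) X) (hJ : IsFamily J)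
    (σ : Form (ES d) X 2) (hσ : IsSmooth σ) (hσc : IsClosedForm σ)
    (hw : ∀ t, WeaklyTamed σ (J t)) :
    ∃ Ω : T → Form (ES d) X 2, CInf Ω ∧ (∀ t, InS σ (Ω t) ∧ ∀ x, TamesAt (Ω t) (J t) x) ∧
      ∀ (S : Type) [TopologicalSpace S] (γ : S × unitInterval → T), Continuous γ →
        ∀ θ : S → Form (ES d) X 2, CInf θ → (∀ s, InS σ (θ s)) →
          (∀ s x, TamesAt (θ s) (J (γ (s, 0))) x) →
          ∃ H : S × unitInterval → Form (ES d) X 2, CInf H ∧ (∀ q, InS σ (H q)) ∧
            (∀ s, H (s, 0) = θ s) ∧ ∀ s, H (s, 1) = Ω (γ (s, 1)) :=
  family J hJ σ hσ hσc hw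

end Pool.Agent.Results.MP_2fc7fa_gt.WeakTamingFamilies
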